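import Pool.Agent.Work.MP_b43138_nt.Defs
import Mathlib

-- merged part: Pool.Agent.Work.MP_b43138_nt.Basic
section
/-!
First properties of the sieve function: extension by zero, monotonicity, growth.
-/

namespace Pool.Agent.Work.MP_b43138_nt

open Real Set Filter Topology MeasureTheory

/-- the normalising constant -/
noncomputable def cA (κ : ℝ) : ℝ :=
  1 / ((2 * Real.exp Real.eulerMascheroniConstant) ^ κ * Real.Gamma (κ + 1))

lemma cA_pos {κ : ℝ} (hκ : 0 < κ) : 0 < cA κ := by
  unfold cA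
  have := Real.Gamma_pos_of_pos (s := κ + 1) (by linarith)
  positivity

/-- extension by zero -/
noncomputable def ext0 (σ : ℝ → ℝ) (u : ℝ) : ℝ := if u ≤ 0 then 0 else σ u

lemma ext0_pos (σ : ℝ → ℝ) {u : ℝ} (hu : 0 < u) : ext0 σ u = σ u := if_neg (not_le.2 hu)

/-- the working form of the definition of the sieve function -/
structure Good (κ A : ℝ) (s : ℝ → ℝ) : Prop where
  cont : Continuous s
  zero : ∀ u, u ≤ 0 → s u = 0
  init : ∀ u, 0 ≤ u → u ≤ 2 → s u = A * u ^ κ
  deriv : ∀ u, 0 < u → HasDerivAt s (κ * (s u - s (u - 2)) / u) u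

lemma IsSigma.good {κ : ℝ} (hκ : 0 < κ) {σ : ℝ → ℝ} (h : IsSigma κ σ) :
    Good κ (cA κ) (ext0 σ) := by
  have hz : ∀ u, u ≤ 0 → ext0 σ u = 0 := fun u hu => if_pos hu
  have hi : ∀ u, 0 ≤ u → u ≤ 2 → ext0 σ u = cA κ * u ^ κ := by
    intro u h0 h2
    rcases eq_or_lt_of_le h0 with rfl | h0
    · rw [hz 0 le_rfl, Real.zero_rpow hκ.ne', mul_zero]
    · rw [ext0_pos σ h0, h.init u h0 h2, cA]; ring
  have hc : Continuous (ext0 σ) := by
    rw [continuous_iff_continuousAt]
    intro u
    rcases lt_or_ge u 2 with hu | hu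
    · have e : ext0 σ =ᶠ[𝓝 u] fun x => cA κ * (max x 0) ^ κ := by
        filter_upwards [Iio_mem_nhds hu] with x hx
        rcases le_total x 0 with h0 | h0
        · rw [hz x h0, max_eq_right h0, Real.zero_rpow hκ.ne', mul_zero]
        · rw [hi x h0 (le_of_lt hx), max_eq_left h0]
      refine ContinuousAt.congr ?_ e.symm
      refine Continuous.continuousAt ?_
      exact continuous_const.mul ((continuous_id.max continuous_const).rpow_const
        fun _ => Or.inr hκ.le)
    · have hu0 : 0 < u := by linarith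
      have e : ext0 σ =ᶠ[𝓝 u] σ := by
        filter_upwards [Ioi_mem_nhds hu0] with x hx using ext0_pos σ hx
      exact (h.cont.continuousAt (Ioi_mem_nhds hu0)).congr e.symm
  have hd : ∀ u, 0 < u → u ≠ 2 →
      HasDerivAt (ext0 σ) (κ * (ext0 σ u - ext0 σ (u - 2)) / u) u := by
    intro u hu h2
    rcases lt_or_gt_of_ne h2 with h2 | h2
    · have e : ext0 σ =ᶠ[𝓝 u] fun x => cA κ * x ^ κ := by
        filter_upwards [Ioo_mem_nhds hu h2] with x hx using hi x hx.1.le hx.2.le
      refine HasDerivAt.congr_of_eventuallyEq ?_ e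
      have := (Real.hasDerivAt_rpow_const (x := u) (p := κ) (Or.inl hu.ne')).const_mul (cA κ)
      refine HasDerivAt.congr_deriv this ?_
      rw [hz (u - 2) (by linarith), hi u hu.le h2.le, Real.rpow_sub_one hu.ne']
      field_simp
      ring
    · have e : ext0 σ =ᶠ[𝓝 u] fun x => x ^ κ * (x ^ (-κ) * σ x) := by
        filter_upwards [Ioi_mem_nhds hu] with x hx
        have hx : 0 < x := hx
        rw [ext0_pos σ hx, ← mul_assoc, ← Real.rpow_add hx]; simp
      refine HasDerivAt.congr_of_eventuallyEq ?_ e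
      have := (Real.hasDerivAt_rpow_const (x := u) (p := κ) (Or.inl hu.ne')).mul (h.ode u h2)
      refine HasDerivAt.congr_deriv this ?_
      rw [ext0_pos σ hu, ext0_pos σ (by linarith), Real.rpow_sub_one hu.ne',
        Real.rpow_sub_one hu.ne', Real.rpow_neg hu.le]
      have : u ^ κ ≠ 0 := (Real.rpow_pos_of_pos hu κ).ne'
      field_simp
      ring
  refine ⟨hc, hz, hi, fun u hu => ?_⟩
  rcases ne_or_eq u 2 with h2 | rfl
  · exact hd u hu h2
  · have hg : ContinuousAt (fun u => κ * (ext0 σ u - ext0 σ (u - 2)) / u) 2 := by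
      refine ContinuousAt.div ?_ continuousAt_id (by norm_num)
      exact (continuous_const.mul (hc.sub (hc.comp (continuous_id.sub continuous_const)))).continuousAt
    have A : HasDerivWithinAt (ext0 σ) (κ * (ext0 σ 2 - ext0 σ (2 - 2)) / 2) (Ici 2) 2 := by
      refine hasDerivWithinAt_Ici_of_tendsto_deriv (s := Ioi 2)
        (fun y hy => (hd y (by linarith [mem_Ioi.1 hy])
          (ne_of_gt hy)).differentiableAt.differentiableWithinAt)
        hc.continuousWithinAt self_mem_nhdsWithin ?_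
      refine (hg.tendsto.mono_left nhdsWithin_le_nhds).congr' ?_
      filter_upwards [self_mem_nhdsWithin] with y hy
      exact (hd y (by linarith [mem_Ioi.1 hy]) (ne_of_gt hy)).deriv.symm
    have B : HasDerivWithinAt (ext0 σ) (κ * (ext0 σ 2 - ext0 σ (2 - 2)) / 2) (Iic 2) 2 := by
      have hm : Ioo (0 : ℝ) 2 ∈ 𝓝[<] (2 : ℝ) := Ioo_mem_nhdsLT (by norm_num)
      refine hasDerivWithinAt_Iic_of_tendsto_deriv (s := Ioo 0 2)
        (fun y hy => (hd y hy.1 (ne_of_lt hy.2)).differentiableAt.differentiableWithinAt)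
        hc.continuousWithinAt hm ?_
      refine (hg.tendsto.mono_left nhdsWithin_le_nhds).congr' ?_
      filter_upwards [hm] with y hy
      exact (hd y hy.1 (ne_of_lt hy.2)).deriv.symm
    simpa using B.union A

namespace Good

variable {κ A : ℝ} {s : ℝ → ℝ}

lemma sub_pos (h : Good κ A s) (hκ : 0 < κ) (hA : 0 < A) : ∀ u, 0 < u → s (u - 2) < s u := by
  have h1 : ∀ u, 0 < u → u ≤ 2 → s (u - 2) < s u := by
    intro u h0 h2
    rw [h.zero _ (by linarith), h.init u h0.le h2]
    positivity
  by_contra hne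
  push Not at hne
  obtain ⟨u, hu, hle⟩ := hne
  let B : Set ℝ := {u | 2 ≤ u ∧ s u ≤ s (u - 2)}
  have hB : IsClosed B := by
    refine (isClosed_le continuous_const continuous_id).inter ?_
    exact isClosed_le h.cont (h.cont.comp (continuous_id.sub continuous_const))
  have hne : B.Nonempty := by
    refine ⟨u, ?_, hle⟩
    by_contra h2
    exact absurd (h1 u hu (by linarith)) (not_lt.2 hle)
  have hbdd : BddBelow B := ⟨2, fun x hx => hx.1⟩
  obtain ⟨hm2, hm⟩ := hB.csInf_mem hne hbdd
  set m := sInf B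
  have hlt : ∀ x, 0 < x → x < m → s (x - 2) < s x := by
    intro x h0 hx
    rcases le_or_gt x 2 with h2 | h2
    · exact h1 x h0 h2
    · by_contra hc
      exact absurd (csInf_le hbdd (show x ∈ B from ⟨h2.le, not_lt.1 hc⟩)) (not_le.2 hx)
  have hmono : StrictMonoOn s (Icc (m - 2) m) := by
    refine strictMonoOn_of_deriv_pos (convex_Icc _ _) h.cont.continuousOn ?_
    intro x hx
    rw [interior_Icc] at hx
    have hx0 : 0 < x := by linarith [hx.1]
    rw [(h.deriv x hx0).deriv]
    have := hlt x hx0 hx.2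
    have : 0 < s x - s (x - 2) := by linarith
    positivity
  have := hmono (left_mem_Icc.2 (by linarith)) (right_mem_Icc.2 (by linarith)) (by linarith)
  exact absurd this (not_lt.2 hm)

lemma strictMonoOn (h : Good κ A s) (hκ : 0 < κ) (hA : 0 < A) : StrictMonoOn s (Ici 0) := by
  refine strictMonoOn_of_deriv_pos (convex_Ici _) h.cont.continuousOn ?_
  intro x hx
  rw [interior_Ici] at hx
  have hx0 : 0 < x := hx
  rw [(h.deriv x hx0).deriv]
  have := h.sub_pos hκ hA x hx0
  have : 0 < s x - s (x - 2) := by linarith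
  positivity

lemma pos (h : Good κ A s) (hκ : 0 < κ) (hA : 0 < A) {u : ℝ} (hu : 0 < u) : 0 < s u := by
  have := h.strictMonoOn hκ hA (le_refl (0 : ℝ)) hu.le hu
  rwa [h.zero 0 le_rfl] at this

lemma nonneg (h : Good κ A s) (hκ : 0 < κ) (hA : 0 < A) (u : ℝ) : 0 ≤ s u := by
  rcases le_or_gt u 0 with hu | hu
  · rw [h.zero u hu]
  · exact (h.pos hκ hA hu).le

lemma monotone (h : Good κ A s) (hκ : 0 < κ) (hA : 0 < A) : Monotone s := by
  intro x y hxy
  rcases le_or_gt x 0 with hx | hx
  · rw [h.zero x hx]; exact h.nonneg hκ hA y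
  · exact (h.strictMonoOn hκ hA).monotoneOn hx.le (hx.le.trans hxy) hxy

lemma le_rpow (h : Good κ A s) (hκ : 0 < κ) (hA : 0 < A) {u : ℝ} (hu : 0 ≤ u) :
    s u ≤ A * u ^ κ := by
  rcases le_or_gt u 2 with h2 | h2
  · exact (h.init u hu h2).le
  have hd : ∀ x, 0 < x → HasDerivAt (fun x => x ^ (-κ) * s x)
      (-(κ * x ^ (-κ) * s (x - 2) / x)) x := by
    intro x hx
    have := (Real.hasDerivAt_rpow_const (x := x) (p := -κ) (Or.inl hx.ne')).mul (h.deriv x hx)
    refine HasDerivAt.congr_deriv this ?_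
    rw [Real.rpow_sub_one hx.ne']
    field_simp
    ring
  have hanti : AntitoneOn (fun x => x ^ (-κ) * s x) (Ici 2) := by
    refine antitoneOn_of_deriv_nonpos (convex_Ici _) ?_ ?_ ?_
    · exact fun x hx => (hd x (by linarith [mem_Ici.1 hx])).continuousAt.continuousWithinAt
    · intro x hx
      rw [interior_Ici] at hx
      exact (hd x (by linarith [mem_Ioi.1 hx])).differentiableAt.differentiableWithinAt
    · intro x hx
      rw [interior_Ici] at hx
      have hx0 : 0 < x := by linarith [mem_Ioi.1 hx]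
      rw [(hd x hx0).deriv]
      have := h.nonneg hκ hA (x - 2)
      have : 0 ≤ κ * x ^ (-κ) * s (x - 2) / x := by positivity
      linarith
  have h3 := hanti (le_refl (2 : ℝ)) h2.le h2.le
  have hu0 : 0 < u := by linarith
  simp only at h3
  rw [h.init 2 (by norm_num) le_rfl, Real.rpow_neg hu, Real.rpow_neg (by norm_num)] at h3
  have h4 : (0 : ℝ) < 2 ^ κ := by positivity
  have h5 : 0 < u ^ κ := by positivity
  rw [show (2 ^ κ : ℝ)⁻¹ * (A * 2 ^ κ) = A by field_simp, inv_mul_le_iff₀ h5] at h3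
  linarith

end Good

end Pool.Agent.Work.MP_b43138_nt
end

-- merged part: Pool.Agent.Work.MP_b43138_nt.Ein
section
/-!
The entire exponential integral `Ein x = ∫_0^x (1 - e^{-t}) / t dt` and Euler's constant.
-/

namespace Pool.Agent.Work.MP_b43138_nt

open Real Set Filter Topology MeasureTheory

lemma integral_log_mul_exp_neg :
    ∫ t in Ioi (0 : ℝ), Real.log t * Real.exp (-t) = -eulerMascheroniConstant := by
  have h1 := Complex.hasDerivAt_GammaIntegral (s := 1) (by simp)
  have h2 : HasDerivAt Complex.GammaIntegral (-(eulerMascheroniConstant : ℂ)) 1 := by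
    refine Complex.hasDerivAt_Gamma_one.congr_of_eventuallyEq ?_
    have : {s : ℂ | 0 < s.re} ∈ 𝓝 (1 : ℂ) :=
      (isOpen_lt continuous_const Complex.continuous_re).mem_nhds (by simp)
    filter_upwards [this] with s hs
    exact (Complex.Gamma_eq_integral hs).symm
  have h3 := h1.unique h2
  simp only [sub_self, Complex.cpow_zero, one_mul] at h3
  rw [← Complex.ofReal_inj, ← integral_complex_ofReal]
  push_cast
  simpa using h3

lemma integrableOn_log_mul_exp_neg :
    IntegrableOn (fun t : ℝ => Real.log t * Real.exp (-t)) (Ioi 0) := by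
  by_contra h
  have := integral_log_mul_exp_neg
  rw [integral_undef h] at this
  linarith [one_half_lt_eulerMascheroniConstant]

/-- `Ein`, written after an integration by parts. -/
noncomputable def ein (x : ℝ) : ℝ :=
  (1 - Real.exp (-x)) * Real.log x - ∫ t in (0 : ℝ)..x, Real.log t * Real.exp (-t)

lemma ii_log_exp (a b : ℝ) :
    IntervalIntegrable (fun t : ℝ => Real.log t * Real.exp (-t)) volume a b :=
  intervalIntegral.intervalIntegrable_log'.mul_continuousOn (by fun_prop)

lemma hasDerivAt_ein {x : ℝ} (hx : 0 < x) : HasDerivAt ein ((1 - Real.exp (-x)) / x) x := by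
  have h1 : HasDerivAt (fun x => 1 - Real.exp (-x)) (Real.exp (-x)) x := by
    simpa using ((hasDerivAt_neg x).exp).const_sub 1
  have h2 := h1.mul (Real.hasDerivAt_log hx.ne')
  have hc : ContinuousOn (fun t : ℝ => Real.log t * Real.exp (-t)) (Ioi 0) := by
    refine ContinuousOn.mul (Real.continuousOn_log.mono fun t ht => ne_of_gt ht) (by fun_prop)
  have h3 : HasDerivAt (fun x => ∫ t in (0 : ℝ)..x, Real.log t * Real.exp (-t))
      (Real.log x * Real.exp (-x)) x :=
    intervalIntegral.integral_hasDerivAt_right (ii_log_exp 0 x)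
      (hc.stronglyMeasurableAtFilter isOpen_Ioi x hx) (hc.continuousAt (Ioi_mem_nhds hx))
  have e : (1 - Real.exp (-x)) / x = Real.exp (-x) * Real.log x + (1 - Real.exp (-x)) * x⁻¹
      - Real.log x * Real.exp (-x) := by
    rw [div_eq_mul_inv]; ring
  rw [e]
  exact h2.sub h3

lemma tendsto_ein_zero : Tendsto ein (𝓝[>] 0) (𝓝 0) := by
  have h1 : Tendsto (fun x => (1 - Real.exp (-x)) * Real.log x) (𝓝[>] 0) (𝓝 0) := by
    have h := (tendsto_log_mul_rpow_nhdsGT_zero (r := 1) one_pos).abs
    rw [abs_zero] at h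
    refine squeeze_zero_norm' ?_ h
    filter_upwards [self_mem_nhdsWithin] with x hx
    have hx : 0 < x := hx
    have h1 : 1 - Real.exp (-x) ≤ x := by linarith [Real.add_one_le_exp (-x)]
    have h2 : Real.exp (-x) ≤ 1 := Real.exp_le_one_iff.2 (by linarith)
    rw [Real.norm_eq_abs, Real.rpow_one, abs_mul, abs_mul, mul_comm,
      abs_of_nonneg (show 0 ≤ 1 - Real.exp (-x) by linarith), abs_of_pos hx]
    exact mul_le_mul_of_nonneg_left h1 (abs_nonneg _)
  have h2 : Continuous (fun x => ∫ t in (0 : ℝ)..x, Real.log t * Real.exp (-t)) :=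
    intervalIntegral.continuous_primitive ii_log_exp 0
  have h3 := (h2.tendsto 0).mono_left (nhdsWithin_le_nhds (s := Ioi 0))
  have h4 := h1.sub h3
  simp only [intervalIntegral.integral_same, sub_zero] at h4
  exact h4

lemma tendsto_ein_atTop :
    Tendsto (fun x => ein x - Real.log x) atTop (𝓝 eulerMascheroniConstant) := by
  have h1 := intervalIntegral_tendsto_integral_Ioi 0 integrableOn_log_mul_exp_neg tendsto_id
  rw [integral_log_mul_exp_neg] at h1
  have h2 : Tendsto (fun x => Real.exp (-x) * Real.log x) atTop (𝓝 0) := by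
    have h := tendsto_rpow_mul_exp_neg_mul_atTop_nhds_zero 1 1 one_pos
    refine squeeze_zero' ?_ ?_ h
    · filter_upwards [eventually_ge_atTop 1] with x hx
      exact mul_nonneg (Real.exp_pos _).le (Real.log_nonneg hx)
    · filter_upwards [eventually_gt_atTop 0] with x hx
      rw [Real.rpow_one, neg_one_mul, mul_comm]
      gcongr
      linarith [Real.log_le_sub_one_of_pos hx]
  have := h2.neg.sub h1
  simp only [neg_zero, sub_neg_eq_add, zero_add, id] at this
  refine this.congr fun x => ?_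
  unfold ein; ring

end Pool.Agent.Work.MP_b43138_nt
end

-- merged part: Pool.Agent.Work.MP_b43138_nt.Laplace
section
/-!
The Laplace transform of the sieve function, and the fact that the function tends to one.
-/

namespace Pool.Agent.Work.MP_b43138_nt

open Real Set Filter Topology MeasureTheory

/-- Laplace transform -/
noncomputable def lap (s : ℝ → ℝ) (r : ℝ) : ℝ := ∫ u in Ioi (0 : ℝ), s u * Real.exp (-(r * u))

/-- Laplace transform of `u * s u` -/
noncomputable def lap1 (s : ℝ → ℝ) (r : ℝ) : ℝ :=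
  ∫ u in Ioi (0 : ℝ), u * s u * Real.exp (-(r * u))

lemma int_rpow_exp {a r : ℝ} (ha : 0 ≤ a) (hr : 0 < r) :
    IntegrableOn (fun u : ℝ => u ^ a * Real.exp (-(r * u))) (Ioi 0) := by
  have := integrableOn_rpow_mul_exp_neg_mul_rpow (p := 1) (s := a) (b := r) (by linarith)
    one_pos hr
  simpa using this

namespace Good

variable {κ A : ℝ} {s : ℝ → ℝ}

lemma int0 (h : Good κ A s) (hκ : 0 < κ) (hA : 0 < A) {r : ℝ} (hr : 0 < r) :
    IntegrableOn (fun u => s u * Real.exp (-(r * u))) (Ioi 0) := by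
  refine Integrable.mono' ((int_rpow_exp hκ.le hr).const_mul A) ?_ ?_
  · have := h.cont
    exact (by fun_prop : Continuous fun u => s u * Real.exp (-(r * u))).aestronglyMeasurable
  · refine (ae_restrict_iff' measurableSet_Ioi).2 (Eventually.of_forall fun u hu => ?_)
    have h1 := h.nonneg hκ hA u
    rw [Real.norm_eq_abs, abs_of_nonneg (by positivity), ← mul_assoc]
    gcongr
    exact h.le_rpow hκ hA (le_of_lt hu)

lemma int1 (h : Good κ A s) (hκ : 0 < κ) (hA : 0 < A) {r : ℝ} (hr : 0 < r) :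
    IntegrableOn (fun u => u * s u * Real.exp (-(r * u))) (Ioi 0) := by
  refine Integrable.mono' ((int_rpow_exp (a := κ + 1) (by linarith) hr).const_mul A) ?_ ?_
  · have := h.cont
    exact (by fun_prop : Continuous fun u => u * s u * Real.exp (-(r * u))).aestronglyMeasurable
  · refine (ae_restrict_iff' measurableSet_Ioi).2 (Eventually.of_forall fun u hu => ?_)
    have h1 := h.nonneg hκ hA u
    have hu : 0 < u := hu
    rw [Real.norm_eq_abs, abs_of_nonneg (by positivity), ← mul_assoc, Real.rpow_add_one hu.ne']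
    refine mul_le_mul_of_nonneg_right ?_ (Real.exp_pos _).le
    have := h.le_rpow hκ hA hu.le
    nlinarith

lemma int2 (h : Good κ A s) (hκ : 0 < κ) (hA : 0 < A) {r : ℝ} (hr : 0 < r) :
    IntegrableOn (fun u => s (u - 2) * Real.exp (-(r * u))) (Ioi 0) := by
  refine Integrable.mono' (h.int0 hκ hA hr) ?_ ?_
  · have := h.cont
    exact (by fun_prop : Continuous fun u => s (u - 2) * Real.exp (-(r * u))).aestronglyMeasurable
  · refine Eventually.of_forall fun u => ?_
    have h1 := h.nonneg hκ hA (u - 2)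
    rw [Real.norm_eq_abs, abs_of_nonneg (by positivity)]
    gcongr
    exact h.monotone hκ hA (by linarith)

lemma lap_shift (h : Good κ A s) (r : ℝ) :
    ∫ u in Ioi (0 : ℝ), s (u - 2) * Real.exp (-(r * u)) = Real.exp (-(2 * r)) * lap s r := by
  unfold lap
  rw [setIntegral_eq_integral_of_forall_compl_eq_zero, setIntegral_eq_integral_of_forall_compl_eq_zero,
    ← integral_const_mul,
    ← integral_sub_right_eq_self (fun u => Real.exp (-(2 * r)) * (s u * Real.exp (-(r * u)))) 2]
  · congr 1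
    ext u
    rw [mul_left_comm, ← Real.exp_add]
    congr 2; ring
  · intro x hx
    rw [h.zero x (not_lt.1 hx), zero_mul]
  · intro x hx
    have hx : x ≤ 0 := not_lt.1 hx
    rw [h.zero (x - 2) (by linarith), zero_mul]

lemma hasDerivAt_lap (h : Good κ A s) (hκ : 0 < κ) (hA : 0 < A) {r : ℝ} (hr : 0 < r) :
    HasDerivAt (lap s) (-lap1 s r) r := by
  have hc := h.cont
  have := hasDerivAt_integral_of_dominated_loc_of_deriv_le (μ := volume.restrict (Ioi (0 : ℝ)))
    (F := fun x u => s u * Real.exp (-(x * u)))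
    (F' := fun x u => -(u * s u * Real.exp (-(x * u)))) (x₀ := r) (s := Ioi (r / 2))
    (bound := fun u => u * s u * Real.exp (-(r / 2 * u)))
    (Ioi_mem_nhds (by linarith))
    (Eventually.of_forall fun x =>
      (by fun_prop : Continuous fun u => s u * Real.exp (-(x * u))).aestronglyMeasurable)
    (h.int0 hκ hA hr)
    (by fun_prop : Continuous fun u => -(u * s u * Real.exp (-(r * u)))).aestronglyMeasurable
    ?_ (h.int1 hκ hA (by linarith)) ?_
  · rw [integral_neg] at this
    exact this.2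
  · refine (ae_restrict_iff' measurableSet_Ioi).2 (Eventually.of_forall fun u hu x hx => ?_)
    have h1 := h.nonneg hκ hA u
    have hu : 0 < u := hu
    have hx : r / 2 < x := hx
    rw [norm_neg, Real.norm_eq_abs, abs_of_nonneg (by positivity)]
    gcongr
  · refine Eventually.of_forall fun u x _ => ?_
    have := (((hasDerivAt_id x).mul_const u).neg.exp).const_mul (s u)
    refine HasDerivAt.congr_deriv this ?_
    simp only [Pi.neg_apply, id]
    ring

lemma lap_ode (h : Good κ A s) (hκ : 0 < κ) (hA : 0 < A) {r : ℝ} (hr : 0 < r) :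
    r * lap1 s r = lap s r + κ * (1 - Real.exp (-(2 * r))) * lap s r := by
  have hc := h.cont
  have i0 := h.int0 hκ hA hr
  have i1 := h.int1 hκ hA hr
  have i2 := h.int2 hκ hA hr
  have i3 : IntegrableOn (fun u => κ * (s u * Real.exp (-(r * u))
      - s (u - 2) * Real.exp (-(r * u)))) (Ioi 0) := (i0.sub i2).const_mul κ
  have i4 : IntegrableOn (fun u => s u * Real.exp (-(r * u)) + κ * (s u * Real.exp (-(r * u))
      - s (u - 2) * Real.exp (-(r * u)))) (Ioi 0) := i0.add i3
  have key := integral_Ioi_of_hasDerivAt_of_tendsto (a := 0) (m := 0)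
    (f := fun u => u * s u * Real.exp (-(r * u)))
    (f' := fun u => (s u * Real.exp (-(r * u)) + κ * (s u * Real.exp (-(r * u))
      - s (u - 2) * Real.exp (-(r * u)))) - r * (u * s u * Real.exp (-(r * u))))
    (by fun_prop : Continuous fun u => u * s u * Real.exp (-(r * u))).continuousWithinAt
    ?_ (i4.sub (i1.const_mul r)) ?_
  · rw [integral_sub i4 (i1.const_mul r),
      integral_add i0 i3, integral_const_mul, integral_const_mul,
      integral_sub i0 i2, h.lap_shift r] at key
    simp only [zero_mul, sub_zero] at key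
    unfold lap lap1 at *
    linear_combination -key
  · intro u hu
    have hu : 0 < u := hu
    have := ((hasDerivAt_id u).mul (h.deriv u hu)).mul (((hasDerivAt_id u).const_mul r).neg.exp)
    refine HasDerivAt.congr_deriv this ?_
    simp only [Pi.neg_apply, id, Pi.mul_apply]
    field_simp
    ring
  · have h0 := (tendsto_rpow_mul_exp_neg_mul_atTop_nhds_zero (κ + 1) r hr).const_mul A
    rw [mul_zero] at h0
    refine squeeze_zero' ?_ ?_ h0
    · filter_upwards [eventually_ge_atTop 0] with u hu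
      have h1 := h.nonneg hκ hA u
      positivity
    · filter_upwards [eventually_gt_atTop 0] with u hu
      rw [neg_mul, ← mul_assoc, Real.rpow_add_one hu.ne']
      refine mul_le_mul_of_nonneg_right ?_ (Real.exp_pos _).le
      have := h.le_rpow hκ hA hu.le
      nlinarith

lemma lap_const (h : Good κ A s) (hκ : 0 < κ) (hA : 0 < A) :
    ∃ C, ∀ r, 0 < r → r * lap s r * Real.exp (κ * ein (2 * r)) = C := by
  have hd : ∀ r, 0 < r → HasDerivAt (fun r => r * lap s r * Real.exp (κ * ein (2 * r))) 0 r := by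
    intro r hr
    have h1 : HasDerivAt (fun r => ein (2 * r)) ((1 - Real.exp (-(2 * r))) / (2 * r) * 2) r := by
      have := (hasDerivAt_ein (x := 2 * r) (by linarith)).comp r ((hasDerivAt_id r).const_mul 2)
      rw [mul_one] at this
      exact this
    have := ((hasDerivAt_id r).mul (h.hasDerivAt_lap hκ hA hr)).mul (h1.const_mul κ).exp
    refine HasDerivAt.congr_deriv this ?_
    simp only [id, Pi.mul_apply]
    have e := h.lap_ode hκ hA hr
    have e2 : r * lap s r * (Real.exp (κ * ein (2 * r)) * (κ * ((1 - Real.exp (-(2 * r)))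
        / (2 * r) * 2))) = Real.exp (κ * ein (2 * r)) * (κ * (1 - Real.exp (-(2 * r))) * lap s r) := by
      field_simp
    rw [e2]
    linear_combination (-Real.exp (κ * ein (2 * r))) * e
  have := IsOpen.exists_is_const_of_deriv_eq_zero (𝕜 := ℝ) isOpen_Ioi isPreconnected_Ioi
    (f := fun r => r * lap s r * Real.exp (κ * ein (2 * r))) (s := Ioi 0)
    (fun r hr => (hd r hr).differentiableAt.differentiableWithinAt)
    (fun r hr => (hd r hr).deriv)
  exact this

lemma lap_atTop (h : Good κ A s) (hκ : 0 < κ) (hA : 0 < A) :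
    Tendsto (fun r => r ^ (κ + 1) * lap s r) atTop (𝓝 (A * Real.Gamma (κ + 1))) := by
  have hG : ∀ r, 0 < r → r ^ (κ + 1) * ∫ u in Ioi (0 : ℝ), A * (u ^ κ * Real.exp (-(r * u)))
      = A * Real.Gamma (κ + 1) := by
    intro r hr
    have := Real.integral_rpow_mul_exp_neg_mul_Ioi (a := κ + 1) (by linarith) hr
    rw [add_sub_cancel_right] at this
    rw [integral_const_mul, this, Real.div_rpow (by norm_num) hr.le, Real.one_rpow]
    have : r ^ (κ + 1) ≠ 0 := (Real.rpow_pos_of_pos hr _).ne'
    field_simp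
  set I := ∫ u in Ioi (0 : ℝ), A * (u ^ κ * Real.exp (-(1 * u))) with hI
  have h0 := ((tendsto_rpow_mul_exp_neg_mul_atTop_nhds_zero (κ + 1) 1 one_pos).mul_const
    I).const_sub (A * Real.Gamma (κ + 1))
  rw [zero_mul, sub_zero] at h0
  refine tendsto_of_tendsto_of_tendsto_of_le_of_le' h0 tendsto_const_nhds ?_ ?_
  · filter_upwards [eventually_ge_atTop 2] with r hr
    have hr0 : 0 < r := by linarith
    rw [← hG r hr0, mul_assoc, ← mul_sub, hI, ← integral_const_mul, ← integral_sub
      ((int_rpow_exp hκ.le hr0).const_mul A)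
      (((int_rpow_exp hκ.le one_pos).const_mul A).const_mul _)]
    refine mul_le_mul_of_nonneg_left ?_ (by positivity)
    refine setIntegral_mono_on (((int_rpow_exp hκ.le hr0).const_mul A).sub
      (((int_rpow_exp hκ.le one_pos).const_mul A).const_mul _)) (h.int0 hκ hA hr0)
      measurableSet_Ioi fun u hu => ?_
    have hu : 0 < u := hu
    rcases le_or_gt u 2 with h2 | h2
    · rw [h.init u hu.le h2]
      have : 0 ≤ Real.exp (-1 * r) * (A * (u ^ κ * Real.exp (-(1 * u)))) := by positivity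
      linarith
    · have h1 := h.nonneg hκ hA u
      have h3 : 0 ≤ s u * Real.exp (-(r * u)) := by positivity
      have h4 : Real.exp (-(r * u)) ≤ Real.exp (-1 * r) * Real.exp (-(1 * u)) := by
        rw [← Real.exp_add]
        exact Real.exp_le_exp.2 (by nlinarith)
      have h5 : A * (u ^ κ * Real.exp (-(r * u))) ≤
          A * (u ^ κ * (Real.exp (-1 * r) * Real.exp (-(1 * u)))) := by gcongr
      linarith
  · filter_upwards [eventually_gt_atTop 0] with r hr0
    rw [← hG r hr0]
    refine mul_le_mul_of_nonneg_left ?_ (by positivity)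
    refine setIntegral_mono_on (h.int0 hκ hA hr0) ((int_rpow_exp hκ.le hr0).const_mul A)
      measurableSet_Ioi fun u hu => ?_
    rw [← mul_assoc]
    gcongr
    exact h.le_rpow hκ hA (le_of_lt hu)

lemma lap_eq (h : Good κ (cA κ) s) (hκ : 0 < κ) {r : ℝ} (hr : 0 < r) :
    r * lap s r = Real.exp (-(κ * ein (2 * r))) := by
  have hA := cA_pos hκ
  obtain ⟨C, hC⟩ := h.lap_const hκ hA
  have h1 := h.lap_atTop hκ hA
  have h2 : Tendsto (fun r => ein (2 * r) - Real.log (2 * r)) atTop
      (𝓝 eulerMascheroniConstant) :=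
    tendsto_ein_atTop.comp (tendsto_id.const_mul_atTop (by norm_num))
  have h3 := (h1.mul ((Real.continuous_exp.tendsto _).comp (h2.const_mul κ))).mul_const (2 ^ κ)
  have h4 : Tendsto (fun _ : ℝ => C) atTop
      (𝓝 (cA κ * Real.Gamma (κ + 1) * Real.exp (κ * eulerMascheroniConstant) * 2 ^ κ)) := by
    refine h3.congr' ?_
    filter_upwards [eventually_gt_atTop 0] with r hr
    rw [← hC r hr]
    simp only [Function.comp]
    rw [mul_sub, Real.exp_sub, mul_comm κ (Real.log _), ← Real.rpow_def_of_pos (by linarith),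
      Real.mul_rpow (by norm_num) hr.le, Real.rpow_add_one hr.ne']
    have : r ^ κ ≠ 0 := (Real.rpow_pos_of_pos hr _).ne'
    field_simp
  have h5 : C = 1 := by
    rw [tendsto_nhds_unique tendsto_const_nhds h4, cA,
      Real.mul_rpow (by norm_num) (Real.exp_pos _).le, ← Real.exp_mul,
      mul_comm eulerMascheroniConstant]
    have := Real.Gamma_pos_of_pos (s := κ + 1) (by linarith)
    field_simp
  have h6 := hC r hr
  rw [h5] at h6
  rw [Real.exp_neg]
  exact eq_inv_of_mul_eq_one_left h6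

lemma lap_zero (h : Good κ (cA κ) s) (hκ : 0 < κ) :
    Tendsto (fun r => r * lap s r) (𝓝[>] 0) (𝓝 1) := by
  have h1 : Tendsto (fun r : ℝ => 2 * r) (𝓝[>] 0) (𝓝[>] 0) := by
    refine tendsto_nhdsWithin_iff.2 ⟨?_, ?_⟩
    · have : Tendsto (fun r : ℝ => 2 * r) (𝓝 0) (𝓝 (2 * 0)) :=
        (continuous_const.mul continuous_id).tendsto 0
      rw [mul_zero] at this
      exact this.mono_left nhdsWithin_le_nhds
    · filter_upwards [self_mem_nhdsWithin] with r hr
      have : 0 < r := hr
      exact mem_Ioi.2 (by linarith)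
  have h2 := (Real.continuous_exp.tendsto _).comp
    ((tendsto_ein_zero.comp h1).const_mul κ).neg
  simp only [mul_zero, neg_zero, Real.exp_zero] at h2
  refine h2.congr' ?_
  filter_upwards [self_mem_nhdsWithin] with r hr
  exact (h.lap_eq hκ hr).symm

lemma le_one (h : Good κ (cA κ) s) (hκ : 0 < κ) (a : ℝ) : s a ≤ 1 := by
  have hA := cA_pos hκ
  rcases le_or_gt a 0 with ha | ha
  · rw [h.zero a ha]; norm_num
  have h1 : Tendsto (fun r : ℝ => s a * Real.exp (-r * a)) (𝓝[>] 0) (𝓝 (s a)) := by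
    have : Tendsto (fun r : ℝ => s a * Real.exp (-r * a)) (𝓝 0)
        (𝓝 (s a * Real.exp (-0 * a))) :=
      (by fun_prop : Continuous fun r : ℝ => s a * Real.exp (-r * a)).tendsto 0
    simp only [neg_zero, zero_mul, Real.exp_zero, mul_one] at this
    exact this.mono_left nhdsWithin_le_nhds
  refine le_of_tendsto_of_tendsto h1 (h.lap_zero hκ) ?_
  filter_upwards [self_mem_nhdsWithin] with r hr
  have hr : 0 < r := hr
  have e : s a * Real.exp (-r * a) = r * ∫ u in Ioi a, s a * Real.exp (-r * u) := by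
    rw [integral_const_mul, integral_exp_mul_Ioi (by linarith)]
    field_simp
  rw [e]
  refine mul_le_mul_of_nonneg_left ?_ hr.le
  have i0 := h.int0 hκ hA hr
  calc ∫ u in Ioi a, s a * Real.exp (-r * u) ≤ ∫ u in Ioi a, s u * Real.exp (-(r * u)) := by
        refine setIntegral_mono_on ((exp_neg_integrableOn_Ioi a hr).const_mul _)
          (i0.mono_set (Ioi_subset_Ioi ha.le)) measurableSet_Ioi fun u hu => ?_
        rw [neg_mul]
        gcongr
        exact h.monotone hκ hA (le_of_lt hu)
    _ ≤ lap s r := by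
        refine setIntegral_mono_set i0 (Eventually.of_forall fun u => ?_)
          (Ioi_subset_Ioi ha.le).eventuallyLE
        have := h.nonneg hκ hA u
        positivity

lemma tendsto_one (h : Good κ (cA κ) s) (hκ : 0 < κ) : Tendsto s atTop (𝓝 1) := by
  have hA := cA_pos hκ
  refine tendsto_order.2 ⟨fun c hc => ?_, fun c hc =>
    Eventually.of_forall fun u => (h.le_one hκ u).trans_lt hc⟩
  obtain ⟨a, ha⟩ : ∃ a, c < s a := by
    by_contra hne
    push Not at hne
    refine absurd (le_of_tendsto (h.lap_zero hκ) ?_) (not_le.2 hc)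
    filter_upwards [self_mem_nhdsWithin] with r hr
    have hr : 0 < r := hr
    have e : c = r * ∫ u in Ioi 0, c * Real.exp (-r * u) := by
      rw [integral_const_mul, integral_exp_mul_Ioi (by linarith)]
      simp only [mul_zero, Real.exp_zero]
      field_simp
    rw [e]
    refine mul_le_mul_of_nonneg_left ?_ hr.le
    refine setIntegral_mono_on (h.int0 hκ hA hr) ((exp_neg_integrableOn_Ioi 0 hr).const_mul _)
      measurableSet_Ioi fun u _ => ?_
    rw [neg_mul]
    gcongr
    exact hne u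
  filter_upwards [eventually_ge_atTop a] with u hu
  exact ha.trans_le (h.monotone hκ hA hu)

end Good

end Pool.Agent.Work.MP_b43138_nt
end

-- merged part: Pool.Agent.Work.MP_b43138_nt.Moments
section
/-!
The tail `T = 1 - σ`: decay and the recursion for its moments.
-/

namespace Pool.Agent.Work.MP_b43138_nt

open Real Set Filter Topology MeasureTheory

/-- properties of the tail -/
structure Tail (κ : ℝ) (T : ℝ → ℝ) : Prop where
  cont : Continuous T
  one : ∀ u, u ≤ 0 → T u = 1
  nonneg : ∀ u, 0 ≤ T u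
  anti : Antitone T
  lim : Tendsto T atTop (𝓝 0)
  deriv : ∀ u, 0 < u → HasDerivAt T (κ * (T u - T (u - 2)) / u) u

lemma Good.tail {κ : ℝ} {s : ℝ → ℝ} (h : Good κ (cA κ) s) (hκ : 0 < κ) :
    Tail κ (fun u => 1 - s u) where
  cont := continuous_const.sub h.cont
  one := fun u hu => by simp [h.zero u hu]
  nonneg := fun u => by linarith [h.le_one hκ u]
  anti := fun x y hxy => by linarith [h.monotone hκ (cA_pos hκ) hxy]
  lim := by simpa using (h.tendsto_one hκ).const_sub 1
  deriv := fun u hu => by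
    refine HasDerivAt.congr_deriv ((h.deriv u hu).const_sub 1) ?_
    ring

lemma shift_Ioi (f : ℝ → ℝ) (a c : ℝ) :
    ∫ x in Ioi a, f (x + c) = ∫ x in Ioi (a + c), f x := by
  have := (measurePreserving_add_right volume c).setIntegral_preimage_emb
    (measurableEmbedding_addRight c) f (Ioi (a + c))
  simpa using this

lemma shift_int {f : ℝ → ℝ} {a c : ℝ} :
    IntegrableOn (fun x => f (x + c)) (Ioi a) ↔ IntegrableOn f (Ioi (a + c)) := by
  have := (measurePreserving_add_right volume c).integrableOn_comp_preimage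
    (measurableEmbedding_addRight c) (f := f) (s := Ioi (a + c))
  simpa [Function.comp_def] using this

/-- the moments -/
noncomputable def mom (T : ℝ → ℝ) (n : ℕ) : ℝ := ∫ x in Ioi (0 : ℝ), (x + 1) ^ n * T x

namespace Tail

variable {κ : ℝ} {T : ℝ → ℝ}

lemma le_one (h : Tail κ T) (u : ℝ) : T u ≤ 1 := by
  rcases le_total u 0 with hu | hu
  · exact (h.one u hu).le
  · exact (h.anti hu).trans (h.one 0 le_rfl).le

lemma window_le (h : Tail κ T) (u : ℝ) : ∫ x in (u - 2)..u, T x ≤ 2 * T (u - 2) := by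
  have := intervalIntegral.integral_mono_on (μ := volume) (a := u - 2) (b := u) (by linarith)
    (h.cont.intervalIntegrable _ _) (continuous_const.intervalIntegrable _ _)
    (g := fun _ => T (u - 2)) (fun x hx => h.anti hx.1)
  simpa using this

lemma window_nonneg (h : Tail κ T) (u : ℝ) : 0 ≤ ∫ x in (u - 2)..u, T x :=
  intervalIntegral.integral_nonneg (by linarith) fun x _ => h.nonneg x

lemma step (h : Tail κ T) (hκ : 0 < κ) {u : ℝ} (hu : 0 < u) :
    T u ≤ 2 * κ / u * T (u - 2) := by
  have hP : ∀ x, HasDerivAt (fun x => ∫ y in (x - 2)..x, T y) (T x - T (x - 2)) x := by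
    intro x
    have h1 : ∀ x, HasDerivAt (fun x => ∫ y in (0 : ℝ)..x, T y) (T x) x := fun x =>
      (h.cont.integral_hasStrictDerivAt 0 x).hasDerivAt
    have h2 := (h1 x).sub ((h1 (x - 2)).comp x ((hasDerivAt_id x).sub_const 2))
    rw [mul_one] at h2
    refine h2.congr_of_eventuallyEq (Eventually.of_forall fun y => ?_)
    exact (intervalIntegral.integral_interval_sub_left (h.cont.intervalIntegrable _ _)
      (h.cont.intervalIntegrable _ _)).symm
  have hd : ∀ x, 0 < x → HasDerivAt (fun x => T x - κ * x⁻¹ * ∫ y in (x - 2)..x, T y)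
      (κ / x ^ 2 * ∫ y in (x - 2)..x, T y) x := by
    intro x hx
    have := (h.deriv x hx).sub (((hasDerivAt_inv hx.ne').const_mul κ).mul (hP x))
    refine HasDerivAt.congr_deriv this ?_
    field_simp
    ring
  have hmono : MonotoneOn (fun x => T x - κ * x⁻¹ * ∫ y in (x - 2)..x, T y) (Ioi 0) := by
    refine monotoneOn_of_deriv_nonneg (convex_Ioi _) ?_ ?_ ?_
    · exact fun x hx => (hd x hx).continuousAt.continuousWithinAt
    · intro x hx
      rw [interior_Ioi] at hx
      exact (hd x hx).differentiableAt.differentiableWithinAt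
    · intro x hx
      rw [interior_Ioi] at hx
      rw [(hd x hx).deriv]
      have := h.window_nonneg x
      positivity
  have hle : T u - κ * u⁻¹ * ∫ y in (u - 2)..u, T y ≤ 0 := by
    refine ge_of_tendsto h.lim ?_
    filter_upwards [eventually_ge_atTop u] with x hx
    have hx0 : 0 < x := hu.trans_le hx
    have h1 := hmono hu hx0 hx
    have h2 := h.window_nonneg x
    have h3 : 0 ≤ κ * x⁻¹ * ∫ y in (x - 2)..x, T y := by positivity
    simp only at h1
    linarith
  have h4 : κ * u⁻¹ * ∫ y in (u - 2)..u, T y ≤ κ * u⁻¹ * (2 * T (u - 2)) := by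
    gcongr; exact h.window_le u
  calc T u ≤ κ * u⁻¹ * (2 * T (u - 2)) := by linarith
    _ = _ := by field_simp

lemma decay (h : Tail κ T) (hκ : 0 < κ) : ∃ C, ∀ u, T u ≤ C * Real.exp (-u) := by
  set u0 := 2 * κ * Real.exp 2 with hu0
  have hu0p : 0 < u0 := by positivity
  have key : ∀ n : ℕ, ∀ u, u ≤ u0 + 2 * n → T u ≤ Real.exp (u0 - u) := by
    intro n
    induction n with
    | zero =>
      intro u hu
      exact (h.le_one u).trans (Real.one_le_exp (by simpa using hu))
    | succ n ih =>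
      intro u hu
      rcases le_or_gt u u0 with h1 | h1
      · exact (h.le_one u).trans (Real.one_le_exp (by linarith))
      · have h2 := ih (u - 2) (by push_cast at hu; linarith)
        have hup : 0 < u := by linarith
        have h3 : 2 * κ / u ≤ Real.exp (-2) := by
          rw [div_le_iff₀ hup, Real.exp_neg, ← div_eq_inv_mul, le_div_iff₀ (Real.exp_pos 2)]
          linarith
        calc T u ≤ 2 * κ / u * T (u - 2) := h.step hκ hup
          _ ≤ Real.exp (-2) * Real.exp (u0 - (u - 2)) := by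
            gcongr; exact h.nonneg _
          _ = Real.exp (u0 - u) := by rw [← Real.exp_add]; congr 1; ring
  refine ⟨Real.exp u0, fun u => ?_⟩
  obtain ⟨n, hn⟩ := exists_nat_ge u
  have := key n u (by linarith [(Nat.cast_nonneg n : (0 : ℝ) ≤ n)])
  rwa [sub_eq_add_neg, Real.exp_add] at this

lemma int_pow (h : Tail κ T) (hκ : 0 < κ) (n : ℕ) :
    IntegrableOn (fun x => (x + 1) ^ n * T x) (Ioi 0) := by
  obtain ⟨C, hC⟩ := h.decay hκ
  have h1 : IntegrableOn (fun x : ℝ => x ^ n * Real.exp (-x)) (Ioi (0 + 1)) := by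
    have := (int_rpow_exp (a := n) (r := 1) (Nat.cast_nonneg n) one_pos).mono_set
      (Ioi_subset_Ioi (by norm_num : (0 : ℝ) ≤ 0 + 1))
    simpa using this
  have h2 := (shift_int.2 h1).const_mul (C * Real.exp 1)
  refine Integrable.mono' h2 ?_ ?_
  · have := h.cont
    exact (by fun_prop : Continuous fun x : ℝ => (x + 1) ^ n * T x).aestronglyMeasurable
  · refine (ae_restrict_iff' measurableSet_Ioi).2 (Eventually.of_forall fun u hu => ?_)
    have h1 := h.nonneg u
    have hu : 0 < u := hu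
    rw [Real.norm_eq_abs, abs_of_nonneg (by positivity)]
    calc (u + 1) ^ n * T u ≤ (u + 1) ^ n * (C * Real.exp (-u)) := by gcongr; exact hC u
      _ = _ := by
        rw [show -u = 1 + -(u + 1) by ring, Real.exp_add]; ring

lemma tendsto_pow (h : Tail κ T) (hκ : 0 < κ) (n : ℕ) :
    Tendsto (fun x => x * (x + 1) ^ n * T x) atTop (𝓝 0) := by
  obtain ⟨C, hC⟩ := h.decay hκ
  have h1 := ((Real.tendsto_pow_mul_exp_neg_atTop_nhds_zero (n + 1)).comp
    (tendsto_atTop_add_const_right atTop 1 tendsto_id)).const_mul (C * Real.exp 1)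
  rw [mul_zero] at h1
  refine squeeze_zero' ?_ ?_ h1
  · filter_upwards [eventually_ge_atTop 0] with x hx
    have := h.nonneg x
    positivity
  · filter_upwards [eventually_ge_atTop 0] with x hx
    have := h.nonneg x
    calc x * (x + 1) ^ n * T x ≤ (x + 1) * (x + 1) ^ n * (C * Real.exp (-x)) := by
          gcongr
          · linarith
          · exact hC x
      _ = _ := by
        simp only [Function.comp, id]
        rw [show -x = 1 + -(x + 1) by ring, Real.exp_add]; ring

lemma binom (x : ℝ) (n : ℕ) : (x + 2 + 1) ^ n =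
    ∑ i ∈ Finset.range (n + 1), (n.choose i : ℝ) * 2 ^ (n - i) * (x + 1) ^ i := by
  rw [show x + 2 + 1 = (x + 1) + 2 by ring, add_pow]
  exact Finset.sum_congr rfl fun i _ => by ring

lemma shifted (h : Tail κ T) (hκ : 0 < κ) (n : ℕ) :
    IntegrableOn (fun x => (x + 1) ^ n * T (x - 2)) (Ioi 0) ∧
    ∫ x in Ioi (0 : ℝ), (x + 1) ^ n * T (x - 2) = (3 ^ (n + 1) - 1) / (n + 1) +
      ∑ i ∈ Finset.range (n + 1), (n.choose i : ℝ) * 2 ^ (n - i) * mom T i := by
  have hc := h.cont
  have e : ∀ x : ℝ, (x + 2 + 1) ^ n * T (x + 2 - 2) =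
      ∑ i ∈ Finset.range (n + 1), (n.choose i : ℝ) * 2 ^ (n - i) * ((x + 1) ^ i * T x) := by
    intro x
    rw [binom, Finset.sum_mul, add_sub_cancel_right]
    exact Finset.sum_congr rfl fun i _ => by ring
  have hi : ∀ i ∈ Finset.range (n + 1), IntegrableOn
      (fun x => (n.choose i : ℝ) * 2 ^ (n - i) * ((x + 1) ^ i * T x)) (Ioi 0) :=
    fun i _ => (h.int_pow hκ i).const_mul _
  have i2 : IntegrableOn (fun x => (x + 1) ^ n * T (x - 2)) (Ioi (0 + 2)) := by
    rw [← shift_int]
    simp only [e]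
    exact integrable_finsetSum _ hi
  have i1 : IntegrableOn (fun x => (x + 1) ^ n * T (x - 2)) (Ioc 0 (0 + 2)) :=
    ((by fun_prop : Continuous fun x : ℝ => (x + 1) ^ n * T (x - 2)).integrableOn_Icc).mono_set
      Ioc_subset_Icc_self
  have hU : Ioc (0 : ℝ) (0 + 2) ∪ Ioi (0 + 2) = Ioi 0 := Ioc_union_Ioi_eq_Ioi (by norm_num)
  refine ⟨hU ▸ i1.union i2, ?_⟩
  rw [← hU, setIntegral_union (Ioc_disjoint_Ioi le_rfl) measurableSet_Ioi i1 i2]
  congr 1
  · rw [← intervalIntegral.integral_of_le (by norm_num),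
      intervalIntegral.integral_congr (g := fun x => (x + 1) ^ n)]
    · rw [intervalIntegral.integral_comp_add_right (fun x => x ^ n), integral_pow]
      norm_num
    · intro x hx
      rw [uIcc_of_le (by norm_num)] at hx
      simp only
      rw [h.one (x - 2) (by linarith [hx.2]), mul_one]
  · rw [← shift_Ioi (fun x => (x + 1) ^ n * T (x - 2))]
    simp only [e]
    rw [integral_finsetSum _ hi]
    exact Finset.sum_congr rfl fun i _ => integral_const_mul _ _

lemma mom_rec (h : Tail κ T) (hκ : 0 < κ) (n : ℕ) :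
    (n + 1) * mom T n = n * mom T (n - 1) + κ * ((3 ^ (n + 1) - 1) / (n + 1) +
      ∑ i ∈ Finset.range n, (n.choose i : ℝ) * 2 ^ (n - i) * mom T i) := by
  have hc := h.cont
  obtain ⟨i2, e2⟩ := h.shifted hκ n
  have i0 := h.int_pow hκ n
  have i1 := h.int_pow hκ (n - 1)
  have i3 : IntegrableOn (fun x => (n + 1 : ℝ) * ((x + 1) ^ n * T x)
      - n * ((x + 1) ^ (n - 1) * T x)) (Ioi 0) := (i0.const_mul _).sub (i1.const_mul _)
  have i4 : IntegrableOn (fun x => κ * ((x + 1) ^ n * T x - (x + 1) ^ n * T (x - 2))) (Ioi 0) :=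
    (i0.sub i2).const_mul _
  have key := integral_Ioi_of_hasDerivAt_of_tendsto (a := 0) (m := 0)
    (f := fun x => x * (x + 1) ^ n * T x)
    (f' := fun x => ((n + 1 : ℝ) * ((x + 1) ^ n * T x) - n * ((x + 1) ^ (n - 1) * T x))
      + κ * ((x + 1) ^ n * T x - (x + 1) ^ n * T (x - 2)))
    (by fun_prop : Continuous fun x : ℝ => x * (x + 1) ^ n * T x).continuousWithinAt
    ?_ (i3.add i4) (h.tendsto_pow hκ n)
  · rw [integral_add i3 i4, integral_sub (i0.const_mul _) (i1.const_mul _), integral_const_mul,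
      integral_const_mul, integral_const_mul, integral_sub i0 i2, e2, Finset.sum_range_succ] at key
    simp only [zero_mul, sub_zero, Nat.choose_self, Nat.cast_one, Nat.sub_self, pow_zero,
      one_mul] at key
    unfold mom at *
    linear_combination key
  · intro x hx
    have hx : 0 < x := hx
    have := ((hasDerivAt_id x).mul (((hasDerivAt_id x).add_const 1).pow n)).mul (h.deriv x hx)
    refine HasDerivAt.congr_deriv this ?_
    simp only [id, Pi.mul_apply, Pi.pow_apply]
    rcases n with _ | n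
    · simp only [pow_zero, Nat.cast_zero]
      field_simp
      ring
    · simp only [Nat.add_sub_cancel, pow_succ]
      push_cast
      field_simp
      ring

lemma markov (h : Tail κ T) (hκ : 0 < κ) (n : ℕ) {x : ℝ} (hx : 0 ≤ x) :
    (x + 1) ^ (n + 1) * T x ≤ 1 + (n + 1) * mom T n := by
  have hc := h.cont
  have h1 : ∫ y in (0 : ℝ)..x, (y + 1) ^ n * T x = ((x + 1) ^ (n + 1) - 1) / (n + 1) * T x := by
    rw [intervalIntegral.integral_mul_const,
      intervalIntegral.integral_comp_add_right (fun x => x ^ n), integral_pow]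
    norm_num
  have h2 : ∫ y in (0 : ℝ)..x, (y + 1) ^ n * T x ≤ ∫ y in (0 : ℝ)..x, (y + 1) ^ n * T y := by
    refine intervalIntegral.integral_mono_on hx
      ((by fun_prop : Continuous fun y : ℝ => (y + 1) ^ n * T x).intervalIntegrable _ _)
      ((by fun_prop : Continuous fun y : ℝ => (y + 1) ^ n * T y).intervalIntegrable _ _)
      fun y hy => ?_
    have := hy.1
    gcongr
    exact h.anti hy.2
  have h3 : ∫ y in (0 : ℝ)..x, (y + 1) ^ n * T y ≤ mom T n := by
    rw [intervalIntegral.integral_of_le hx]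
    refine setIntegral_mono_set (h.int_pow hκ n) ?_ Ioc_subset_Ioi_self.eventuallyLE
    refine (ae_restrict_iff' measurableSet_Ioi).2 (Eventually.of_forall fun u hu => ?_)
    have h1 := h.nonneg u
    have hu : 0 < u := hu
    simp only [Pi.zero_apply]
    positivity
  have h4 := h.le_one x
  have h5 : ((x + 1) ^ (n + 1) - 1) / (n + 1) * T x ≤ mom T n := by linarith
  rw [div_mul_eq_mul_div, div_le_iff₀ (by positivity)] at h5
  linarith

end Tail

end Pool.Agent.Work.MP_b43138_nt
end

-- merged part: Pool.Agent.Work.MP_b43138_nt.Eta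
section
/-!
Bounds for `η_κ` in terms of the moments of the tail, for integer `κ`.
-/

namespace Pool.Agent.Work.MP_b43138_nt

open Real Set Filter Topology MeasureTheory

/-- the integrand, after a shift by one -/
noncomputable def igd (s : ℝ → ℝ) (j : ℕ) (x : ℝ) : ℝ := (x + 1) ^ j * ((1 - s x) / s x)

lemma eta_eq {j : ℕ} {σ : ℝ → ℝ} (h : IsSigma ((j : ℝ) + 1) σ) {u : ℝ} (hu : 1 < u) :
    eta ((j : ℝ) + 1) σ u =
      (j + 1) * (u ^ (j + 1))⁻¹ * ∫ x in Ioi (u - 1), igd (ext0 σ) j x := by
  have hκ : (0 : ℝ) < j + 1 := by positivity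
  have hg := h.good hκ
  unfold eta
  rw [Real.rpow_neg (by linarith), ← Nat.cast_succ, Real.rpow_natCast]
  congr 1
  rw [show Ioi u = Ioi (u - 1 + 1) by simp, ← shift_Ioi]
  refine setIntegral_congr_fun measurableSet_Ioi fun x hx => ?_
  have hx : 0 < x := by linarith [mem_Ioi.1 hx]
  have hp := hg.pos hκ (cA_pos hκ) hx
  simp only [igd, add_sub_cancel_right]
  rw [ext0_pos σ hx] at hp ⊢
  rw [Nat.cast_succ, add_sub_cancel_right, Real.rpow_natCast]
  field_simp

namespace Good

variable {κ : ℝ} {s : ℝ → ℝ}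

lemma igd_nonneg (h : Good κ (cA κ) s) (hκ : 0 < κ) (j : ℕ) {x : ℝ} (hx : 0 < x) :
    0 ≤ igd s j x := by
  have h1 := h.pos hκ (cA_pos hκ) hx
  have h2 : 0 ≤ 1 - s x := by linarith [h.le_one hκ x]
  unfold igd
  positivity

lemma igd_contOn (h : Good κ (cA κ) s) (hκ : 0 < κ) (j : ℕ) :
    ContinuousOn (igd s j) (Ioi 0) := by
  have hc := h.cont
  refine ContinuousOn.mul (by fun_prop) (ContinuousOn.div (by fun_prop) hc.continuousOn ?_)
  exact fun x hx => (h.pos hκ (cA_pos hκ) hx).ne'

lemma igd_le (h : Good κ (cA κ) s) (hκ : 0 < κ) (j : ℕ) {a x : ℝ} (ha : 0 < a) (hx : a ≤ x) :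
    igd s j x ≤ (s a)⁻¹ * ((x + 1) ^ j * (1 - s x)) := by
  have h1 := h.pos hκ (cA_pos hκ) ha
  have h2 : 0 ≤ 1 - s x := by linarith [h.le_one hκ x]
  have h3 := h.monotone hκ (cA_pos hκ) hx
  have hx0 : 0 < x := ha.trans_le hx
  unfold igd
  rw [mul_left_comm, ← div_eq_inv_mul]
  gcongr

lemma le_igd (h : Good κ (cA κ) s) (hκ : 0 < κ) (j : ℕ) {x : ℝ} (hx : 0 < x) :
    (x + 1) ^ j * (1 - s x) ≤ igd s j x := by
  have h1 := h.pos hκ (cA_pos hκ) hx
  have h2 : 0 ≤ 1 - s x := by linarith [h.le_one hκ x]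
  unfold igd
  gcongr
  rw [le_div_iff₀ h1]
  nlinarith [h.le_one hκ x]

lemma igd_int (h : Good κ (cA κ) s) (hκ : 0 < κ) (j : ℕ) {a : ℝ} (ha : 0 < a) :
    IntegrableOn (igd s j) (Ioi a) := by
  refine Integrable.mono' ((((h.tail hκ).int_pow hκ j).mono_set
    (Ioi_subset_Ioi ha.le)).const_mul (s a)⁻¹) ?_ ?_
  · exact ((h.igd_contOn hκ j).mono (Ioi_subset_Ioi ha.le)).aestronglyMeasurable measurableSet_Ioi
  · refine (ae_restrict_iff' measurableSet_Ioi).2 (Eventually.of_forall fun x hx => ?_)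
    rw [Real.norm_eq_abs, abs_of_nonneg (h.igd_nonneg hκ j (ha.trans hx))]
    exact h.igd_le hκ j ha (le_of_lt hx)

lemma I_nonneg (h : Good κ (cA κ) s) (hκ : 0 < κ) (j : ℕ) {a : ℝ} (ha : 0 < a) :
    0 ≤ ∫ x in Ioi a, igd s j x :=
  setIntegral_nonneg measurableSet_Ioi fun _ hx => h.igd_nonneg hκ j (ha.trans hx)

lemma I_anti (h : Good κ (cA κ) s) (hκ : 0 < κ) (j : ℕ) {a b : ℝ} (ha : 0 < a) (hab : a ≤ b) :
    ∫ x in Ioi b, igd s j x ≤ ∫ x in Ioi a, igd s j x := by
  refine setIntegral_mono_set (h.igd_int hκ j ha) ?_ (Ioi_subset_Ioi hab).eventuallyLE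
  exact (ae_restrict_iff' measurableSet_Ioi).2
    (Eventually.of_forall fun x hx => h.igd_nonneg hκ j (ha.trans hx))

lemma I_contOn (h : Good κ (cA κ) s) (hκ : 0 < κ) (j : ℕ) {a b : ℝ} (ha : 0 < a) (hab : a ≤ b) :
    ContinuousOn (fun u => ∫ x in Ioi u, igd s j x) (Icc a b) := by
  have hi := h.igd_int hκ j ha
  have h1 : ContinuousOn (fun u => ∫ x in a..u, igd s j x) (uIcc a b) := by
    refine intervalIntegral.continuousOn_primitive_interval' ?_ left_mem_uIcc
    rw [intervalIntegrable_iff_integrableOn_Ioc_of_le hab]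
    exact hi.mono_set Ioc_subset_Ioi_self
  rw [uIcc_of_le hab] at h1
  refine (continuousOn_const (c := ∫ x in Ioi a, igd s j x).sub h1).congr fun u hu => ?_
  simp only [Pi.sub_apply]
  rw [intervalIntegral.integral_of_le hu.1, ← Ioc_union_Ioi_eq_Ioi hu.1,
    setIntegral_union (Ioc_disjoint_Ioi le_rfl) measurableSet_Ioi
      (hi.mono_set Ioc_subset_Ioi_self) (hi.mono_set (Ioi_subset_Ioi hu.1))]
  ring

lemma I_upper (h : Good κ (cA κ) s) (hκ : 0 < κ) (j : ℕ) {a : ℝ} (ha : 0 < a) :
    ∫ x in Ioi a, igd s j x ≤ (s a)⁻¹ * mom (fun u => 1 - s u) j := by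
  have hi := (h.tail hκ).int_pow hκ j
  have h1 := h.pos hκ (cA_pos hκ) ha
  calc ∫ x in Ioi a, igd s j x ≤ ∫ x in Ioi a, (s a)⁻¹ * ((x + 1) ^ j * (1 - s x)) :=
        setIntegral_mono_on (h.igd_int hκ j ha) ((hi.mono_set (Ioi_subset_Ioi ha.le)).const_mul _)
          measurableSet_Ioi fun x hx => h.igd_le hκ j ha (le_of_lt hx)
    _ ≤ _ := by
        rw [integral_const_mul]
        refine mul_le_mul_of_nonneg_left ?_ (by positivity)
        refine setIntegral_mono_set hi ?_ (Ioi_subset_Ioi ha.le).eventuallyLE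
        refine (ae_restrict_iff' measurableSet_Ioi).2 (Eventually.of_forall fun x hx => ?_)
        have h2 : 0 ≤ 1 - s x := by linarith [h.le_one hκ x]
        have hx : 0 < x := hx
        simp only [Pi.zero_apply]
        positivity

lemma I_lower (h : Good κ (cA κ) s) (hκ : 0 < κ) (m d : ℕ) {a C : ℝ} (ha : 0 < a) (hC0 : 0 ≤ C)
    (hC : ∀ x, 0 ≤ x → (x + 1) ^ m * (1 - s x) ≤ C) :
    mom (fun u => 1 - s u) (m + d) - C * (a + 1) ^ (d + 1) / (d + 1) ≤
      ∫ x in Ioi a, igd s (m + d) x := by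
  have hi := (h.tail hκ).int_pow hκ (m + d)
  have h1 : ∫ x in Ioi a, (x + 1) ^ (m + d) * (1 - s x) ≤ ∫ x in Ioi a, igd s (m + d) x :=
    setIntegral_mono_on (hi.mono_set (Ioi_subset_Ioi ha.le)) (h.igd_int hκ _ ha)
      measurableSet_Ioi fun x hx => h.le_igd hκ _ (ha.trans hx)
  have h2 : mom (fun u => 1 - s u) (m + d) = (∫ x in (0 : ℝ)..a, (x + 1) ^ (m + d) * (1 - s x)) +
      ∫ x in Ioi a, (x + 1) ^ (m + d) * (1 - s x) := by
    rw [mom, intervalIntegral.integral_of_le ha.le, ← Ioc_union_Ioi_eq_Ioi ha.le,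
      setIntegral_union (Ioc_disjoint_Ioi le_rfl) measurableSet_Ioi
        (hi.mono_set Ioc_subset_Ioi_self) (hi.mono_set (Ioi_subset_Ioi ha.le))]
  have hc := h.cont
  have h3 : ∫ x in (0 : ℝ)..a, (x + 1) ^ (m + d) * (1 - s x) ≤
      ∫ x in (0 : ℝ)..a, C * (x + 1) ^ d := by
    refine intervalIntegral.integral_mono_on ha.le
      ((by fun_prop : Continuous fun x : ℝ => (x + 1) ^ (m + d) * (1 - s x)).intervalIntegrable _ _)
      ((by fun_prop : Continuous fun x : ℝ => C * (x + 1) ^ d).intervalIntegrable _ _)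
      fun x hx => ?_
    have hx0 := hx.1
    calc (x + 1) ^ (m + d) * (1 - s x) = (x + 1) ^ m * (1 - s x) * (x + 1) ^ d := by ring
      _ ≤ _ := by gcongr; exact hC x hx0
  have h4 : ∫ x in (0 : ℝ)..a, C * (x + 1) ^ d ≤ C * (a + 1) ^ (d + 1) / (d + 1) := by
    rw [intervalIntegral.integral_const_mul,
      intervalIntegral.integral_comp_add_right (fun x => x ^ d), integral_pow, mul_div_assoc]
    gcongr
    simp
  linarith

end Good

section
variable {j : ℕ} {σ : ℝ → ℝ}

lemma eta_anti (h : IsSigma ((j : ℝ) + 1) σ) {a b : ℝ} (ha : 1 < a) (hab : a ≤ b) :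
    eta ((j : ℝ) + 1) σ b ≤ eta ((j : ℝ) + 1) σ a := by
  have hκ : (0 : ℝ) < j + 1 := by positivity
  have hg := h.good hκ
  rw [eta_eq h ha, eta_eq h (ha.trans_le hab)]
  have h1 := hg.I_nonneg hκ j (a := b - 1) (by linarith)
  have h2 := hg.I_anti hκ j (a := a - 1) (b := b - 1) (by linarith) (by linarith)
  have ha0 : 0 < a := by linarith
  gcongr

lemma eta_contOn (h : IsSigma ((j : ℝ) + 1) σ) {a b : ℝ} (ha : 1 < a) (hab : a ≤ b) :
    ContinuousOn (eta ((j : ℝ) + 1) σ) (Icc a b) := by
  have hκ : (0 : ℝ) < j + 1 := by positivity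
  have hg := h.good hκ
  have h1 := hg.I_contOn hκ j (a := a - 1) (b := b - 1) (by linarith) (by linarith)
  have h2 : ContinuousOn (fun u => ∫ x in Ioi (u - 1), igd (ext0 σ) j x) (Icc a b) :=
    h1.comp (f := fun u => u - 1) (by fun_prop)
      fun u hu => ⟨by linarith [hu.1], by linarith [hu.2]⟩
  refine ContinuousOn.congr (f := fun u => (j + 1) * (u ^ (j + 1))⁻¹ *
    ∫ x in Ioi (u - 1), igd (ext0 σ) j x) ?_ fun u hu => eta_eq h (ha.trans_le hu.1)
  refine ContinuousOn.mul (continuousOn_const.mul (ContinuousOn.inv₀ (by fun_prop) ?_)) h2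
  intro u hu
  have : 0 < u := by linarith [hu.1]
  positivity

lemma eta_lt_one (h : IsSigma ((j : ℝ) + 1) σ) (n : ℕ) {u : ℝ} (hu : 1 < u)
    (hc : (j + 1) * mom (fun u => 1 - ext0 σ u) j * u ^ (n + 1) <
      u ^ (j + 1) * (u ^ (n + 1) - (1 + (n + 1) * mom (fun u => 1 - ext0 σ u) n))) :
    eta ((j : ℝ) + 1) σ u < 1 := by
  have hκ : (0 : ℝ) < j + 1 := by positivity
  have hg := h.good hκ
  have hu0 : 0 < u := by linarith
  have h1 := hg.I_upper hκ j (a := u - 1) (by linarith)
  have h2 := (hg.tail hκ).markov hκ n (x := u - 1) (by linarith)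
  have h3 := hg.pos hκ (cA_pos hκ) (u := u - 1) (by linarith)
  rw [sub_add_cancel] at h2
  rw [eta_eq h hu]
  set M := mom (fun u => 1 - ext0 σ u) j
  set S := ext0 σ (u - 1)
  have hp : 0 < u ^ (j + 1) := by positivity
  have hq : 0 < u ^ (n + 1) := by positivity
  have h4 : (j + 1) * M * u ^ (n + 1) < u ^ (j + 1) * S * u ^ (n + 1) := by nlinarith
  have h5 : (j + 1) * M < u ^ (j + 1) * S := lt_of_mul_lt_mul_right h4 hq.le
  calc _ ≤ (j + 1) * (u ^ (j + 1))⁻¹ * (S⁻¹ * M) := by gcongr
    _ = (j + 1) * M / (u ^ (j + 1) * S) := by field_simp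
    _ < 1 := by rw [div_lt_one (by positivity)]; exact h5

lemma one_lt_eta {m d : ℕ} (h : IsSigma (((m + d : ℕ) : ℝ) + 1) σ) {u C : ℝ} (hu : 1 < u)
    (hC0 : 0 ≤ C) (hC : ∀ x, 0 ≤ x → (x + 1) ^ m * (1 - ext0 σ x) ≤ C)
    (hc : u ^ (m + d + 1) < (((m + d : ℕ) : ℝ) + 1) *
      (mom (fun u => 1 - ext0 σ u) (m + d) - C * u ^ (d + 1) / (d + 1))) :
    1 < eta (((m + d : ℕ) : ℝ) + 1) σ u := by
  have hκ : (0 : ℝ) < ((m + d : ℕ) : ℝ) + 1 := by positivity
  have hg := h.good hκ
  have hu0 : 0 < u := by linarith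
  have h1 := hg.I_lower hκ m d (a := u - 1) (by linarith) hC0 hC
  rw [sub_add_cancel] at h1
  rw [eta_eq h hu]
  have hp : 0 < u ^ (m + d + 1) := by positivity
  rw [mul_right_comm, ← div_eq_mul_inv, one_lt_div hp]
  exact hc.trans_le (by gcongr)

end

end Pool.Agent.Work.MP_b43138_nt
end

-- merged part: Pool.Agent.Work.MP_b43138_nt.Exist
section
/-!
Existence of the sieve function, by the method of steps.
-/

namespace Pool.Agent.Work.MP_b43138_nt

open Real Set Filter Topology MeasureTheory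

/-- the kernel -/
noncomputable def ker (κ t : ℝ) : ℝ := (max t 2) ^ (-κ - 1) * (max (t - 2) 0) ^ κ

lemma ker_cont {κ : ℝ} (hκ : 0 < κ) : Continuous (ker κ) := by
  unfold ker
  refine Continuous.mul ?_ ?_
  · refine (continuous_id.max continuous_const).rpow_const fun x => Or.inl ?_
    exact ne_of_gt (lt_of_lt_of_le (by norm_num) (le_max_right x (2 : ℝ)))
  · exact ((continuous_id.sub continuous_const).max continuous_const).rpow_const
      fun _ => Or.inr hκ.le

lemma ker_zero {κ : ℝ} (hκ : 0 < κ) {t : ℝ} (ht : t ≤ 2) : ker κ t = 0 := by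
  unfold ker
  rw [max_eq_right (show t - 2 ≤ 0 by linarith), Real.zero_rpow hκ.ne', mul_zero]

/-- the iteration -/
noncomputable def iter (κ A : ℝ) : ℕ → ℝ → ℝ
  | 0 => fun _ => A
  | n + 1 => fun u => A - κ * ∫ t in (2 : ℝ)..u, ker κ t * iter κ A n (t - 2)

lemma iter_cont {κ : ℝ} (hκ : 0 < κ) (A : ℝ) (n : ℕ) : Continuous (iter κ A n) := by
  induction n with
  | zero => exact continuous_const
  | succ n ih =>
    have hk := ker_cont hκ
    have : Continuous fun t => ker κ t * iter κ A n (t - 2) := by fun_prop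
    exact continuous_const.sub (continuous_const.mul
      (intervalIntegral.continuous_primitive (fun a b => this.intervalIntegrable a b) 2))

lemma iter_deriv {κ : ℝ} (hκ : 0 < κ) (A : ℝ) (n : ℕ) (u : ℝ) :
    HasDerivAt (iter κ A (n + 1)) (-(κ * (ker κ u * iter κ A n (u - 2)))) u := by
  have hk := ker_cont hκ
  have ih := iter_cont hκ A n
  have : Continuous fun t => ker κ t * iter κ A n (t - 2) := by fun_prop
  exact (((this.integral_hasStrictDerivAt 2 u).hasDerivAt).const_mul κ).const_sub A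

lemma iter_init {κ : ℝ} (hκ : 0 < κ) (A : ℝ) (n : ℕ) {u : ℝ} (hu : u ≤ 2) :
    iter κ A n u = A := by
  cases n with
  | zero => rfl
  | succ n =>
    have : ∫ t in (2 : ℝ)..u, ker κ t * iter κ A n (t - 2) = ∫ t in (2 : ℝ)..u, (0 : ℝ) := by
      refine intervalIntegral.integral_congr fun t ht => ?_
      rw [uIcc_of_ge hu] at ht
      simp [ker_zero hκ ht.2]
    simp [iter, this]

lemma iter_succ {κ : ℝ} (hκ : 0 < κ) (A : ℝ) (n : ℕ) :
    ∀ u : ℝ, u ≤ 2 * n + 2 → iter κ A (n + 1) u = iter κ A n u := by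
  induction n with
  | zero =>
    intro u hu
    rw [iter_init hκ A _ (by simpa using hu), iter_init hκ A _ (by simpa using hu)]
  | succ n ih =>
    intro u hu
    have : ∫ t in (2 : ℝ)..u, ker κ t * iter κ A (n + 1) (t - 2) =
        ∫ t in (2 : ℝ)..u, ker κ t * iter κ A n (t - 2) := by
      refine intervalIntegral.integral_congr fun t ht => ?_
      have hn : (0 : ℝ) ≤ n := Nat.cast_nonneg n
      have : t ≤ 2 * n + 4 := by
        push_cast at hu
        exact ht.2.trans (max_le (by linarith) (by linarith))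
      rw [ih (t - 2) (by linarith)]
    change A - κ * _ = A - κ * _
    rw [this]

lemma iter_stable {κ : ℝ} (hκ : 0 < κ) (A : ℝ) {n m : ℕ} (hnm : n ≤ m) {u : ℝ}
    (hu : u ≤ 2 * n + 2) : iter κ A m u = iter κ A n u := by
  induction m, hnm using Nat.le_induction with
  | base => rfl
  | succ m hm ih =>
    have : (n : ℝ) ≤ m := by exact_mod_cast hm
    rw [iter_succ hκ A m u (by linarith), ih]

/-- the limit of the iteration -/
noncomputable def lim (κ A u : ℝ) : ℝ := iter κ A ⌈u⌉₊ u

lemma lim_eq {κ : ℝ} (hκ : 0 < κ) (A : ℝ) {n : ℕ} {u : ℝ} (hu : u ≤ 2 * n + 2) :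
    lim κ A u = iter κ A n u := by
  have h1 : u ≤ 2 * (⌈u⌉₊ : ℝ) + 2 := by
    have := Nat.le_ceil u
    have : (0 : ℝ) ≤ ⌈u⌉₊ := Nat.cast_nonneg _
    linarith
  rw [lim, ← iter_stable hκ A (le_max_left ⌈u⌉₊ n) h1, iter_stable hκ A (le_max_right ⌈u⌉₊ n) hu]

lemma lim_deriv {κ : ℝ} (hκ : 0 < κ) (A : ℝ) (u : ℝ) :
    HasDerivAt (lim κ A) (-(κ * (ker κ u * lim κ A (u - 2)))) u := by
  obtain ⟨n, hn⟩ := exists_nat_ge u
  have hn0 : (0 : ℝ) ≤ n := Nat.cast_nonneg n
  rw [lim_eq hκ A (n := n) (by linarith)]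
  refine (iter_deriv hκ A n u).congr_of_eventuallyEq ?_
  filter_upwards [Iio_mem_nhds (show u < u + 1 by linarith)] with x hx
  refine lim_eq hκ A ?_
  push_cast
  linarith [mem_Iio.1 hx]

theorem exists_isSigma {κ : ℝ} (hκ : 0 < κ) : ∃ σ, IsSigma κ σ := by
  have hc : Continuous (lim κ (cA κ)) :=
    continuous_iff_continuousAt.2 fun u => (lim_deriv hκ _ u).continuousAt
  refine ⟨fun u => u ^ κ * lim κ (cA κ) u, ?_, ?_, ?_⟩
  · exact ((continuous_id.rpow_const fun _ => Or.inr hκ.le).mul hc).continuousOn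
  · intro u _ h2
    rw [lim, iter_init hκ _ _ h2, cA]; ring
  · intro u hu
    have hu0 : 0 < u := by linarith
    refine HasDerivAt.congr_deriv ((lim_deriv hκ (cA κ) u).congr_of_eventuallyEq ?_) ?_
    · filter_upwards [Ioi_mem_nhds hu0] with x hx
      have hx : 0 < x := hx
      rw [← mul_assoc, ← Real.rpow_add hx]; simp
    · rw [ker, max_eq_left hu.le, max_eq_left (by linarith)]; ring

end Pool.Agent.Work.MP_b43138_nt
end
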