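import Pool.Agent.Work.MP_b43138_nt.Exist

/-!
Exact rational values of the moments.
-/

namespace Pool.Agent.Work.MP_b43138_nt

/-- weighted sum with the weights `C(n, i) 2 ^ (n - i)` updated along the list -/
def dot (n : ℕ) : ℕ → ℕ → List ℚ → ℚ
  | _, _, [] => 0
  | i, w, b :: bs => w * b + dot n (i + 1) (w * (n - i) / (2 * (i + 1))) bs

lemma dot_spec (n : ℕ) (l : List ℚ) : ∀ i, i + l.length ≤ n →
    dot n i (n.choose i * 2 ^ (n - i)) l = ∑ j ∈ Finset.range l.length,
      ((n.choose (i + j) * 2 ^ (n - (i + j)) : ℕ) : ℚ) * l.getD j 0 := by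
  induction l with
  | nil => intro i _; simp [dot]
  | cons b bs ih =>
    intro i hi
    rw [List.length_cons] at hi
    have e : n.choose i * 2 ^ (n - i) * (n - i) / (2 * (i + 1)) =
        n.choose (i + 1) * 2 ^ (n - (i + 1)) := by
      refine Nat.div_eq_of_eq_mul_left (by omega) ?_
      have h1 := Nat.choose_succ_right_eq n i
      rw [show n - i = n - (i + 1) + 1 by omega] at h1 ⊢
      rw [pow_succ]
      calc _ = (n.choose i * (n - (i + 1) + 1)) * (2 ^ (n - (i + 1)) * 2) := by ring
        _ = _ := by rw [← h1]; ring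
    rw [dot, e, ih (i + 1) (by omega), List.length_cons, Finset.sum_range_succ', add_comm]
    congr 1
    refine Finset.sum_congr rfl fun j _ => ?_
    rw [show i + 1 + j = i + (j + 1) by ring, List.getD_cons_succ]

/-- next moment from the list of the previous ones -/
def nextQ (k : ℚ) (n : ℕ) (l : List ℚ) : ℚ :=
  (n * l.getD (n - 1) 0 + k * ((3 ^ (n + 1) - 1) / (n + 1) + dot n 0 (2 ^ n) l)) / (n + 1)

/-- the list of the first `n` moments -/
def momL (k : ℚ) : ℕ → List ℚ
  | 0 => []
  | n + 1 => momL k n ++ [nextQ k n (momL k n)]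

lemma momL_spec {k : ℚ} (hk : (0 : ℝ) < k) {T : ℝ → ℝ} (h : Tail (k : ℝ) T) (n : ℕ) :
    (momL k n).length = n ∧ ∀ i < n, (((momL k n).getD i 0 : ℚ) : ℝ) = mom T i := by
  induction n with
  | zero => simp [momL]
  | succ n ih =>
    obtain ⟨h1, h2⟩ := ih
    refine ⟨by simp [momL, h1], fun i hi => ?_⟩
    rcases Nat.lt_succ_iff_lt_or_eq.1 hi with hi | rfl
    · rw [momL, List.getD_append _ _ _ _ (by omega)]
      exact h2 i hi
    · rw [momL, List.getD_append_right _ _ _ _ (by omega), h1, Nat.sub_self, List.getD_cons_zero,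
        nextQ]
      have e0 := dot_spec i (momL k i) 0 (by omega)
      rw [h1, Nat.choose_zero_right, one_mul, Nat.sub_zero] at e0
      simp only [zero_add] at e0
      rw [e0]
      have e := h.mom_rec hk i
      have e1 : (i : ℝ) * (((momL k i).getD (i - 1) 0 : ℚ) : ℝ) = i * mom T (i - 1) := by
        rcases Nat.eq_zero_or_pos i with rfl | hi0
        · simp
        · rw [h2 (i - 1) (by omega)]
      have e2 : ∑ j ∈ Finset.range i, ((i.choose j * 2 ^ (i - j) : ℕ) : ℝ) *
          (((momL k i).getD j 0 : ℚ) : ℝ) =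
          ∑ j ∈ Finset.range i, (i.choose j : ℝ) * 2 ^ (i - j) * mom T j := by
        refine Finset.sum_congr rfl fun j hj => ?_
        rw [h2 j (Finset.mem_range.1 hj)]
        push_cast; ring
      simp only [Rat.cast_div, Rat.cast_add, Rat.cast_mul, Rat.cast_natCast, Rat.cast_sub,
        Rat.cast_pow, Rat.cast_ofNat, Rat.cast_one, Rat.cast_sum]
      rw [e1, e2, ← e]
      field_simp

/-- test for `η(u) < 1` -/
def upOK (l : List ℚ) (j n : ℕ) (u : ℚ) : Bool :=
  decide ((j + 1) * l.getD j 0 * u ^ (n + 1) <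
    u ^ (j + 1) * (u ^ (n + 1) - (1 + (n + 1) * l.getD n 0)))

/-- test for `1 < η(u)` -/
def lowOK (l : List ℚ) (m d : ℕ) (u C : ℚ) : Bool :=
  decide (u ^ (m + d + 1) < (((m + d : ℕ) : ℚ) + 1) * (l.getD (m + d) 0 - C * u ^ (d + 1) / (d + 1)))

lemma check80 : (lowOK (momL 80 80) 33 46 (19592 / 100) (1 + 33 * (momL 80 80).getD 32 0) &&
    upOK (momL 80 80) 79 37 200) = true := by
  decide +kernel

lemma check150 : (lowOK (momL 150 150) 0 149 2 1 &&
    upOK (momL 150 150) 149 70 (36734 / 100)) = true := by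
  decide +kernel

end Pool.Agent.Work.MP_b43138_nt
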