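import Mathlib

/-!
Definitions for problem MP_b43138_nt, copied from the problem file.
-/

namespace Pool.Agent.Work.MP_b43138_nt

/-- `σ` is the sieve function `σ_κ`: continuous on `(0, ∞)`, equal to
`u ^ κ / ((2 e ^ γ) ^ κ Γ(κ + 1))` on `(0, 2]`, and
`(u ^ (-κ) σ(u))' = -κ u ^ (-κ - 1) σ(u - 2)` for `u > 2`. -/
structure IsSigma (κ : ℝ) (σ : ℝ → ℝ) : Prop where
  /-- continuity on `(0, ∞)` -/
  cont : ContinuousOn σ (Set.Ioi 0)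
  /-- the initial values -/
  init : ∀ u : ℝ, 0 < u → u ≤ 2 →
    σ u = u ^ κ / ((2 * Real.exp Real.eulerMascheroniConstant) ^ κ * Real.Gamma (κ + 1))
  /-- the differential-delay equation -/
  ode : ∀ u : ℝ, 2 < u →
    HasDerivAt (fun x : ℝ => x ^ (-κ) * σ x) (-κ * u ^ (-κ - 1) * σ (u - 2)) u

/-- `η_κ(u) = κ u ^ (-κ) ∫_u^∞ t ^ (κ - 1) (1 / σ(t - 1) - 1) dt`. -/
noncomputable def eta (κ : ℝ) (σ : ℝ → ℝ) (u : ℝ) : ℝ :=
  κ * u ^ (-κ) * ∫ t in Set.Ioi u, t ^ (κ - 1) * (1 / σ (t - 1) - 1)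

end Pool.Agent.Work.MP_b43138_nt
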